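import Mathlib
import Pool.Agent.V1139.PMC.Comb

/-!
# Every numerical semigroup of type `t > 1` is realised by an arithmetically Cohen-Macaulay
projective monomial curve of type `t`
-/

open MvPolynomial

namespace Pool.Agent.Results.MP_4f2529_ag.ExistsACM

open Pool.Agent.V1139.PMC

universe u

/-! ### Definitions -/

/-- A numerical semigroup is a submonoid of `ℕ` with finite complement. -/
def IsNumericalSemigroup (T : AddSubmonoid ℕ) : Prop := {x : ℕ | x ∉ T}.Finite

/-- The pseudo-Frobenius numbers of `T`: the integers `x` outside `T` such that `x + s` lies in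
`T` for every nonzero `s ∈ T`. -/
def pseudoFrobenius (T : AddSubmonoid ℕ) : Set ℤ :=
  {x | (∀ n ∈ T, (n : ℤ) ≠ x) ∧ ∀ s ∈ T, s ≠ 0 → ∃ n ∈ T, (n : ℤ) = x + s}

/-- The type of a numerical semigroup: the number of its pseudo-Frobenius numbers. -/
noncomputable def semigroupType (T : AddSubmonoid ℕ) : ℕ := (pseudoFrobenius T).ncard

/-- The exponents `0 = a₀ < a₁ < ⋯ < aₙ = d` of a projective monomial curve, with gcd `1`. -/
structure IsCurveData {n : ℕ} (a : Fin (n + 1) → ℕ) : Prop where
  zero : a 0 = 0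
  mono : StrictMono a
  gcd : Finset.univ.gcd a = 1

/-- The homogeneous coordinate ring `k[C] = k[u^{a_i} v^{d - a_i}] ⊆ k[u, v]`, where `u = X 0`,
`v = X 1` and `d = a_n`. -/
noncomputable def coordRing (k : Type u) [Field k] {n : ℕ} (a : Fin (n + 1) → ℕ) :
    Subalgebra k (MvPolynomial (Fin 2) k) :=
  Algebra.adjoin k (Set.range fun i => X 0 ^ a i * X 1 ^ (a (Fin.last n) - a i))

/-- The image `u^{a_i} v^{d - a_i}` of the variable `x_i` in `k[C]`. -/
noncomputable def coord (k : Type u) [Field k] {n : ℕ} (a : Fin (n + 1) → ℕ) (i : Fin (n + 1)) :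
    coordRing k a :=
  ⟨X 0 ^ a i * X 1 ^ (a (Fin.last n) - a i), Algebra.subset_adjoin ⟨i, rfl⟩⟩

/-- The irrelevant maximal ideal of `k[C]`. -/
noncomputable def irrelevant (k : Type u) [Field k] {n : ℕ} (a : Fin (n + 1) → ℕ) :
    Ideal (coordRing k a) :=
  Ideal.span (Set.range (coord k a))

/-- The ideal `(y, z)` of `k[C]`. -/
noncomputable def pairIdeal {k : Type u} [Field k] {n : ℕ} {a : Fin (n + 1) → ℕ}
    (y z : coordRing k a) : Ideal (coordRing k a) := Ideal.span {y, z}

/-- The socle of `k[C] / J`: the elements of `k[C] / J` killed by the irrelevant ideal. -/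
noncomputable def socle {k : Type u} [Field k] {n : ℕ} {a : Fin (n + 1) → ℕ}
    (J : Ideal (coordRing k a)) : Submodule (coordRing k a) (coordRing k a ⧸ J) :=
  Submodule.torsionBySet _ _ (irrelevant k a : Set (coordRing k a))

/-- The dimension over `k` of the socle of `k[C] / J`. -/
noncomputable def socleDim {k : Type u} [Field k] {n : ℕ} {a : Fin (n + 1) → ℕ}
    (J : Ideal (coordRing k a)) : ℕ :=
  Module.finrank k (socle J)

/-- `k[C] / J` is a finite-dimensional vector space over `k`. -/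
def IsFiniteDimensional {k : Type u} [Field k] {n : ℕ} {a : Fin (n + 1) → ℕ}
    (J : Ideal (coordRing k a)) : Prop :=
  Module.Finite k (coordRing k a ⧸ J)

/-- An element of `k[C]` is homogeneous (as a polynomial in `u, v`). -/
def IsHomog {k : Type u} [Field k] {n : ℕ} {a : Fin (n + 1) → ℕ} (y : coordRing k a) : Prop :=
  ∃ p, (y : MvPolynomial (Fin 2) k).IsHomogeneous p

/-- `y, z` is a regular sequence of homogeneous elements of the irrelevant ideal of `k[C]`. -/
structure IsHomogRegPair {k : Type u} [Field k] {n : ℕ} {a : Fin (n + 1) → ℕ}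
    (y z : coordRing k a) : Prop where
  mem_left : y ∈ irrelevant k a
  mem_right : z ∈ irrelevant k a
  homog_left : IsHomog y
  homog_right : IsHomog z
  regular : RingTheory.Sequence.IsRegular (coordRing k a) [y, z]

/-- The curve `C` is arithmetically Cohen-Macaulay and its Cohen-Macaulay type is `t`: there is
a regular sequence `y, z` of homogeneous elements of the irrelevant ideal of `k[C]` such that
`k[C]/(y,z)` is a finite-dimensional `k`-vector space whose socle has dimension `t`. -/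
def IsACMOfType (k : Type u) [Field k] {n : ℕ} (a : Fin (n + 1) → ℕ) (t : ℕ) : Prop :=
  ∃ y z : coordRing k a, IsHomogRegPair y z ∧ IsFiniteDimensional (pairIdeal y z) ∧
    socleDim (pairIdeal y z) = t

/-! ### Exponents -/

/-- exponent vectors -/
noncomputable def E (x y : ℕ) : Fin 2 →₀ ℕ := Finsupp.single 0 x + Finsupp.single 1 y

@[simp] theorem E_zero (x y : ℕ) : E x y 0 = x := by simp [E]

@[simp] theorem E_one (x y : ℕ) : E x y 1 = y := by simp [E]

theorem E_ext {α β : Fin 2 →₀ ℕ} (h0 : α 0 = β 0) (h1 : α 1 = β 1) : α = β := by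
  ext i
  fin_cases i
  · exact h0
  · exact h1

theorem E_eta (α : Fin 2 →₀ ℕ) : E (α 0) (α 1) = α := E_ext (by simp) (by simp)

theorem E_le {x y : ℕ} {α : Fin 2 →₀ ℕ} : E x y ≤ α ↔ x ≤ α 0 ∧ y ≤ α 1 := by
  constructor
  · intro h
    have h0 := h 0
    have h1 := h 1
    simp only [E_zero, E_one] at h0 h1
    exact ⟨h0, h1⟩
  · rintro ⟨h0, h1⟩ i
    fin_cases i
    · simpa using h0
    · simpa using h1

theorem mono_eq (k : Type u) [Field k] (x y : ℕ) :
    (X 0 ^ x * X 1 ^ y : MvPolynomial (Fin 2) k) = monomial (E x y) 1 := by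
  rw [E, X_pow_eq_monomial, X_pow_eq_monomial, monomial_mul, one_mul]

/-- exponents in the semigroup of the curve -/
def InS (A : Set ℕ) (d : ℕ) (α : Fin 2 →₀ ℕ) : Prop := ∃ m, α 0 + α 1 = m * d ∧ α 0 ∈ K A m

/-- the Apery condition -/
def InAp (A : Set ℕ) (d : ℕ) (x m : ℕ) : Prop :=
  x ∈ K A m ∧ (∀ m', m = m' + 1 → x ∉ K A m') ∧
    (∀ m' x', m = m' + 1 → x = x' + d → x' ∉ K A m')

section algebra

variable {k : Type u} [Field k] {n : ℕ} {a : Fin (n + 1) → ℕ}

/-- The combinatorial properties used. -/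
structure Good (a : Fin (n + 1) → ℕ) (P : Set ℕ) : Prop where
  zero : a 0 = 0
  pos : 0 < a (Fin.last n)
  le : ∀ i, a i ≤ a (Fin.last n)
  fin : P.Finite
  cm : ∀ x m p, x ∈ K (Set.range a) p → x + a (Fin.last n) ∈ K (Set.range a) m →
    ∃ m', m = m' + 1 ∧ x ∈ K (Set.range a) m'
  soc1 : ∀ f ∈ P, InAp (Set.range a) (a (Fin.last n)) (a (Fin.last n) + f) 3
  soc2 : ∀ f ∈ P, ∀ i, ¬ InAp (Set.range a) (a (Fin.last n)) (a (Fin.last n) + f + a i) 4
  soc3 : ∀ x m, InAp (Set.range a) (a (Fin.last n)) x m →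
    (∃ f ∈ P, x = a (Fin.last n) + f ∧ m = 3) ∨
      ∃ i, InAp (Set.range a) (a (Fin.last n)) (x + a i) (m + 1)
  bdd : ∀ x m, InAp (Set.range a) (a (Fin.last n)) x m → m ≤ 3

theorem InS_zero (A : Set ℕ) (d : ℕ) : InS A d 0 := ⟨0, by simp, by simp [K_zero]⟩

theorem InS_add {A : Set ℕ} {d : ℕ} {α β : Fin 2 →₀ ℕ} (hα : InS A d α) (hβ : InS A d β) :
    InS A d (α + β) := by
  obtain ⟨m, h1, h2⟩ := hα
  obtain ⟨p, h3, h4⟩ := hβ
  refine ⟨m + p, ?_, ?_⟩
  · rw [add_mul, ← h1, ← h3]
    simp only [Finsupp.add_apply]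
    ring
  · simpa using K_add_add h2 h4

theorem InS_gen (hle : ∀ i, a i ≤ a (Fin.last n)) (i : Fin (n + 1)) :
    InS (Set.range a) (a (Fin.last n)) (E (a i) (a (Fin.last n) - a i)) := by
  refine ⟨1, ?_, ?_⟩
  · have := hle i
    simp only [E_zero, E_one]
    omega
  · simpa using K_one (A := Set.range a) ⟨i, rfl⟩

theorem supp_of_mem (hle : ∀ i, a i ≤ a (Fin.last n)) {f : MvPolynomial (Fin 2) k}
    (hf : f ∈ coordRing k a) (α : Fin 2 →₀ ℕ) (hα : coeff α f ≠ 0) :
    InS (Set.range a) (a (Fin.last n)) α := by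
  classical
  unfold coordRing at hf
  induction hf using Algebra.adjoin_induction generalizing α with
  | mem x hx =>
    obtain ⟨i, rfl⟩ := hx
    simp only [mono_eq] at hα
    rw [coeff_monomial] at hα
    by_cases h : E (a i) (a (Fin.last n) - a i) = α
    · rw [← h]; exact InS_gen hle i
    · rw [if_neg h] at hα; exact absurd rfl hα
  | algebraMap r =>
    rw [MvPolynomial.algebraMap_eq, coeff_C] at hα
    by_cases h : 0 = α
    · rw [← h]; exact InS_zero _ _
    · rw [if_neg h] at hα; exact absurd rfl hα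
  | add x y _ _ hx hy =>
    rw [coeff_add] at hα
    by_cases h : coeff α x = 0
    · apply hy; intro h'; rw [h, h', add_zero] at hα; exact hα rfl
    · exact hx α h
  | mul x y _ _ hx hy =>
    rw [coeff_mul] at hα
    obtain ⟨⟨β, γ⟩, hm, hne⟩ := Finset.exists_ne_zero_of_sum_ne_zero hα
    rw [Finset.HasAntidiagonal.mem_antidiagonal] at hm
    rw [← hm]
    exact InS_add (hx β (left_ne_zero_of_mul hne)) (hy γ (right_ne_zero_of_mul hne))

theorem monomial_mem (hle : ∀ i, a i ≤ a (Fin.last n)) {α : Fin 2 →₀ ℕ}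
    (h : InS (Set.range a) (a (Fin.last n)) α) (c : k) : monomial α c ∈ coordRing k a := by
  have key : ∀ m x, x ∈ K (Set.range a) m → ∀ y, x + y = m * a (Fin.last n) →
      (monomial (E x y) 1 : MvPolynomial (Fin 2) k) ∈ coordRing k a := by
    intro m
    induction m with
    | zero =>
      intro x hx y hy
      rw [K_zero] at hx
      have : E x y = 0 := by
        apply E_ext
        · simpa using hx
        · simp only [E_one, Finsupp.coe_zero, Pi.zero_apply]; omega
      rw [this]
      exact (coordRing k a).one_mem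
    | succ m ih =>
      intro x hx y hy
      obtain ⟨x', hx', b, ⟨i, rfl⟩, rfl⟩ := hx
      have h1 : x' ≤ m * a (Fin.last n) :=
        K_le (A := Set.range a) (by rintro _ ⟨j, rfl⟩; exact hle j) hx'
      have h2 := hle i
      have h3 : (m + 1) * a (Fin.last n) = m * a (Fin.last n) + a (Fin.last n) := by ring
      have h4 := ih x' hx' (m * a (Fin.last n) - x') (by omega)
      have h5 : (monomial (E (a i) (a (Fin.last n) - a i)) 1 : MvPolynomial (Fin 2) k) ∈
          coordRing k a := by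
        rw [← mono_eq]; exact Algebra.subset_adjoin ⟨i, rfl⟩
      have h6 := (coordRing k a).mul_mem h4 h5
      rw [monomial_mul, one_mul] at h6
      have h7 : E x' (m * a (Fin.last n) - x') + E (a i) (a (Fin.last n) - a i) =
          E (x' + a i) y := by
        apply E_ext
        · simp
        · simp only [Finsupp.add_apply, E_one]; omega
      rwa [h7] at h6
  obtain ⟨m, h1, h2⟩ := h
  have := (coordRing k a).smul_mem (key m (α 0) h2 (α 1) h1) c
  rwa [E_eta, smul_monomial, smul_eq_mul, mul_one] at this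

theorem mem_iff (hle : ∀ i, a i ≤ a (Fin.last n)) {f : MvPolynomial (Fin 2) k} :
    f ∈ coordRing k a ↔ ∀ α, coeff α f ≠ 0 → InS (Set.range a) (a (Fin.last n)) α := by
  constructor
  · intro hf α hα
    exact supp_of_mem hle hf α hα
  · intro h
    rw [← support_sum_monomial_coeff f]
    apply Subalgebra.sum_mem
    intro α hα
    exact monomial_mem hle (h α (by simpa using hα)) _

theorem mem_iff' (hle : ∀ i, a i ≤ a (Fin.last n)) (f : coordRing k a) (α : Fin 2 →₀ ℕ)
    (h : coeff α (f : MvPolynomial (Fin 2) k) ≠ 0) :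
    InS (Set.range a) (a (Fin.last n)) α :=
  (mem_iff hle).1 f.2 α h

/-- Apery exponents -/
def ApE (a : Fin (n + 1) → ℕ) (α : Fin 2 →₀ ℕ) : Prop :=
  ∃ m, α 0 + α 1 = m * a (Fin.last n) ∧ InAp (Set.range a) (a (Fin.last n)) (α 0) m

variable (k a) in
/-- `v ^ d` -/
noncomputable def yy : coordRing k a := coord k a 0

variable (k a) in
/-- `u ^ d` -/
noncomputable def zz : coordRing k a := coord k a (Fin.last n)

theorem yy_coe (h0 : a 0 = 0) : (yy k a : MvPolynomial (Fin 2) k) =
    monomial (E 0 (a (Fin.last n))) 1 := by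
  unfold yy coord
  simp only
  rw [mono_eq, h0, Nat.sub_zero]

theorem zz_coe : (zz k a : MvPolynomial (Fin 2) k) =
    monomial (E (a (Fin.last n)) 0) 1 := by
  unfold zz coord
  simp only
  rw [mono_eq, Nat.sub_self]

theorem coord_coe (i : Fin (n + 1)) : (coord k a i : MvPolynomial (Fin 2) k) =
    monomial (E (a i) (a (Fin.last n) - a i)) 1 := by
  unfold coord
  simp only
  rw [mono_eq]

/-- The ideal `(y, z)` has no Apery exponents. -/
theorem not_ApE_of_mem {P : Set ℕ} (h : Good a P) {f : coordRing k a}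
    (hf : f ∈ Ideal.span {yy k a, zz k a}) {α : Fin 2 →₀ ℕ}
    (hα : coeff α (f : MvPolynomial (Fin 2) k) ≠ 0) : ¬ ApE a α := by
  classical
  rw [Ideal.mem_span_pair] at hf
  obtain ⟨g, g', hg⟩ := hf
  have hg' : (f : MvPolynomial (Fin 2) k) =
      monomial (E 0 (a (Fin.last n))) 1 * (g : MvPolynomial (Fin 2) k) +
      monomial (E (a (Fin.last n)) 0) 1 * (g' : MvPolynomial (Fin 2) k) := by
    rw [← yy_coe (k := k) h.zero, ← zz_coe (k := k), ← hg]
    simp only [Subalgebra.coe_add, Subalgebra.coe_mul]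
    ring
  rw [hg', coeff_add, coeff_monomial_mul', coeff_monomial_mul', one_mul, one_mul] at hα
  rintro ⟨m, h1, h2, h3, h4⟩
  have hpos := h.pos
  by_cases hc : E 0 (a (Fin.last n)) ≤ α ∧ coeff (α - E 0 (a (Fin.last n))) (g : MvPolynomial (Fin 2) k) ≠ 0
  · obtain ⟨hc1, hc2⟩ := hc
    obtain ⟨m', h5, h6⟩ := mem_iff' h.le g _ hc2
    rw [E_le] at hc1
    simp only [Finsupp.tsub_apply, E_zero, E_one, Nat.sub_zero] at h5 h6
    have hm : m * a (Fin.last n) = (m' + 1) * a (Fin.last n) := by
      rw [← h1, add_mul, ← h5]; omega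
    exact h3 m' (Nat.eq_of_mul_eq_mul_right hpos hm) h6
  · by_cases hc' : E (a (Fin.last n)) 0 ≤ α ∧ coeff (α - E (a (Fin.last n)) 0) (g' : MvPolynomial (Fin 2) k) ≠ 0
    · obtain ⟨hc1, hc2⟩ := hc'
      obtain ⟨m', h5, h6⟩ := mem_iff' h.le g' _ hc2
      rw [E_le] at hc1
      simp only [Finsupp.tsub_apply, E_zero, E_one, Nat.sub_zero] at h5 h6
      have hm : m * a (Fin.last n) = (m' + 1) * a (Fin.last n) := by
        rw [← h1, add_mul, ← h5]; omega
      exact h4 m' _ (Nat.eq_of_mul_eq_mul_right hpos hm) (by omega) h6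
    · apply hα
      have e1 : (if E 0 (a (Fin.last n)) ≤ α then
          coeff (α - E 0 (a (Fin.last n))) (g : MvPolynomial (Fin 2) k) else 0) = 0 := by
        by_cases hh : E 0 (a (Fin.last n)) ≤ α
        · rw [if_pos hh]
          by_contra hne
          exact hc ⟨hh, hne⟩
        · rw [if_neg hh]
      have e2 : (if E (a (Fin.last n)) 0 ≤ α then
          coeff (α - E (a (Fin.last n)) 0) (g' : MvPolynomial (Fin 2) k) else 0) = 0 := by
        by_cases hh : E (a (Fin.last n)) 0 ≤ α
        · rw [if_pos hh]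
          by_contra hne
          exact hc' ⟨hh, hne⟩
        · rw [if_neg hh]
      rw [e1, e2, add_zero]

/-- monomials of `k[C]` as elements -/
noncomputable def ee (k : Type u) [Field k] (a : Fin (n + 1) → ℕ) (α : Fin 2 →₀ ℕ) :
    coordRing k a := by
  classical
  exact if h : monomial α (1 : k) ∈ coordRing k a then ⟨monomial α 1, h⟩ else 0

theorem ee_coe (hle : ∀ i, a i ≤ a (Fin.last n)) {α : Fin 2 →₀ ℕ}
    (h : InS (Set.range a) (a (Fin.last n)) α) :
    (ee k a α : MvPolynomial (Fin 2) k) = monomial α 1 := by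
  unfold ee
  rw [dif_pos (monomial_mem hle h 1)]

theorem ee_mem {P : Set ℕ} (h : Good a P) {α : Fin 2 →₀ ℕ}
    (hS : InS (Set.range a) (a (Fin.last n)) α) (hA : ¬ ApE a α) :
    ee k a α ∈ Ideal.span {yy k a, zz k a} := by
  have hpos := h.pos
  obtain ⟨m, h1, h2⟩ := hS
  have : (∃ m', m = m' + 1 ∧ α 0 ∈ K (Set.range a) m') ∨
      (∃ m' x', m = m' + 1 ∧ α 0 = x' + a (Fin.last n) ∧ x' ∈ K (Set.range a) m') := by
    by_contra hc
    push Not at hc
    exact hA ⟨m, h1, h2, hc.1, hc.2⟩
  rcases this with ⟨m', rfl, h3⟩ | ⟨m', x', rfl, h3, h4⟩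
  · have h5 : α 0 ≤ m' * a (Fin.last n) :=
      K_le (A := Set.range a) (by rintro _ ⟨j, rfl⟩; exact h.le j) h3
    rw [add_mul, one_mul] at h1
    have h6 : InS (Set.range a) (a (Fin.last n)) (E (α 0) (α 1 - a (Fin.last n))) := by
      refine ⟨m', ?_, ?_⟩
      · simp only [E_zero, E_one]; omega
      · simpa using h3
    have h7 : ee k a α = ee k a (E (α 0) (α 1 - a (Fin.last n))) * yy k a := by
      apply Subtype.ext
      rw [Subalgebra.coe_mul, ee_coe h.le h6, yy_coe h.zero, monomial_mul, one_mul]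
      have h8 : InS (Set.range a) (a (Fin.last n)) α := ⟨m' + 1, by rw [add_mul, one_mul]; omega, h2⟩
      rw [ee_coe h.le h8]
      have h9 : E (α 0) (α 1 - a (Fin.last n)) + E 0 (a (Fin.last n)) = α := by
        apply E_ext
        · simp
        · simp only [Finsupp.add_apply, E_one]; omega
      rw [h9]
    rw [h7]
    exact Ideal.mul_mem_left _ _ (Ideal.subset_span (by simp))
  · rw [add_mul, one_mul] at h1
    have h6 : InS (Set.range a) (a (Fin.last n)) (E x' (α 1)) := by
      refine ⟨m', ?_, ?_⟩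
      · simp only [E_zero, E_one]; omega
      · simpa using h4
    have h7 : ee k a α = ee k a (E x' (α 1)) * zz k a := by
      apply Subtype.ext
      rw [Subalgebra.coe_mul, ee_coe h.le h6, zz_coe, monomial_mul, one_mul]
      have h8 : InS (Set.range a) (a (Fin.last n)) α := ⟨m' + 1, by rw [add_mul, one_mul]; omega, h2⟩
      rw [ee_coe h.le h8]
      have h9 : E x' (α 1) + E (a (Fin.last n)) 0 = α := by
        apply E_ext
        · simp only [Finsupp.add_apply, E_zero]; omega
        · simp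
      rw [h9]
    rw [h7]
    exact Ideal.mul_mem_left _ _ (Ideal.subset_span (by simp))

theorem sum_ee (hle : ∀ i, a i ≤ a (Fin.last n)) (f : coordRing k a) :
    f = ∑ α ∈ (f : MvPolynomial (Fin 2) k).support,
      coeff α (f : MvPolynomial (Fin 2) k) • ee k a α := by
  apply Subtype.ext
  rw [AddSubmonoidClass.coe_finsetSum]
  conv_lhs => rw [← support_sum_monomial_coeff (f : MvPolynomial (Fin 2) k)]
  apply Finset.sum_congr rfl
  intro α hα
  rw [Subalgebra.coe_smul, ee_coe hle (mem_iff' hle f α (by simpa using hα)), smul_monomial,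
    smul_eq_mul, mul_one]

theorem mem_of_not_ApE {P : Set ℕ} (h : Good a P) {f : coordRing k a}
    (hf : ∀ α, coeff α (f : MvPolynomial (Fin 2) k) ≠ 0 → ¬ ApE a α) :
    f ∈ Ideal.span {yy k a, zz k a} := by
  rw [sum_ee h.le f]
  apply Ideal.sum_mem
  intro α hα
  have hα' : coeff α (f : MvPolynomial (Fin 2) k) ≠ 0 := by simpa using hα
  have := ee_mem (k := k) h (mem_iff' h.le f α hα') (hf α hα')
  rw [← smul_one_mul]
  exact Ideal.mul_mem_left _ _ this

/-- top exponents -/
noncomputable def tp (a : Fin (n + 1) → ℕ) (f : ℕ) : Fin 2 →₀ ℕ :=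
  E (a (Fin.last n) + f) (2 * a (Fin.last n) - f)

theorem f_le {P : Set ℕ} (h : Good a P) {f : ℕ} (hf : f ∈ P) : f ≤ 2 * a (Fin.last n) := by
  have := (h.soc1 f hf).1
  have h2 := K_le (A := Set.range a) (M := a (Fin.last n))
    (by rintro _ ⟨j, rfl⟩; exact h.le j) this
  omega

theorem tp_ApE {P : Set ℕ} (h : Good a P) {f : ℕ} (hf : f ∈ P) : ApE a (tp a f) := by
  have := f_le h hf
  refine ⟨3, ?_, ?_⟩
  · simp only [tp, E_zero, E_one]; omega
  · simpa [tp] using h.soc1 f hf

theorem tp_InS {P : Set ℕ} (h : Good a P) {f : ℕ} (hf : f ∈ P) :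
    InS (Set.range a) (a (Fin.last n)) (tp a f) := by
  obtain ⟨m, h1, h2, _⟩ := tp_ApE h hf
  exact ⟨m, h1, h2⟩

theorem tp_inj {f g : ℕ} (h : tp a f = tp a g) : f = g := by
  have := congrArg (fun α => α 0) h
  simp only [tp, E_zero] at this
  omega

theorem ApE_unique {P : Set ℕ} (h : Good a P) {α : Fin 2 →₀ ℕ} {m m' : ℕ}
    (h1 : α 0 + α 1 = m * a (Fin.last n)) (h2 : α 0 + α 1 = m' * a (Fin.last n)) : m = m' :=
  Nat.eq_of_mul_eq_mul_right h.pos (h1.symm.trans h2)

/-- The top monomials are killed by the variables. -/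
theorem coord_mul_top {P : Set ℕ} (h : Good a P) {f : ℕ} (hf : f ∈ P) (i : Fin (n + 1)) :
    coord k a i * ee k a (tp a f) ∈ Ideal.span {yy k a, zz k a} := by
  classical
  have hpos := h.pos
  apply mem_of_not_ApE h
  intro α hα
  rw [Subalgebra.coe_mul, coord_coe, ee_coe h.le (tp_InS h hf), monomial_mul, one_mul,
    coeff_monomial] at hα
  by_cases hc : E (a i) (a (Fin.last n) - a i) + tp a f = α
  · rw [← hc]
    rintro ⟨m, h1, h2⟩
    have hle := h.le i
    have hfl := f_le h hf
    have h4 : m = 4 := by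
      apply Nat.eq_of_mul_eq_mul_right hpos
      rw [← h1]
      simp only [Finsupp.add_apply, E_zero, E_one, tp]
      omega
    subst h4
    apply h.soc2 f hf i
    have h5 : (E (a i) (a (Fin.last n) - a i) + tp a f) 0 = a (Fin.last n) + f + a i := by
      simp only [Finsupp.add_apply, E_zero, tp]; omega
    rwa [h5] at h2
  · rw [if_neg hc] at hα
    exact absurd rfl hα

theorem mem_socle {J : Ideal (coordRing k a)} {q : coordRing k a ⧸ J} :
    q ∈ socle J ↔ ∀ x ∈ irrelevant k a, x • q = 0 := by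
  unfold socle
  rw [Submodule.mem_torsionBySet_iff]
  exact ⟨fun h x hx => h ⟨x, hx⟩, fun h x => h x x.2⟩

theorem top_mem_socle {P : Set ℕ} (h : Good a P) {f : ℕ} (hf : f ∈ P) :
    (Ideal.Quotient.mk (Ideal.span {yy k a, zz k a}) (ee k a (tp a f))) ∈
      socle (Ideal.span {yy k a, zz k a}) := by
  rw [mem_socle]
  intro x hx
  rw [← Ideal.Quotient.mk_eq_mk, ← Submodule.Quotient.mk_smul, Submodule.Quotient.mk_eq_zero,
    smul_eq_mul]
  unfold irrelevant at hx
  induction hx using Submodule.span_induction with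
  | mem x hx =>
    obtain ⟨i, rfl⟩ := hx
    exact coord_mul_top h hf i
  | zero => rw [zero_mul]; exact Ideal.zero_mem _
  | add x y _ _ hx hy => rw [add_mul]; exact Ideal.add_mem _ hx hy
  | smul c x _ hx => rw [smul_eq_mul, mul_assoc]; exact Ideal.mul_mem_left _ _ hx

/-- Elements of the socle have no non-top Apery exponents. -/
theorem socle_coeff {P : Set ℕ} (h : Good a P) {f : coordRing k a}
    (hf : Ideal.Quotient.mk (Ideal.span {yy k a, zz k a}) f ∈
      socle (Ideal.span {yy k a, zz k a})) {α : Fin 2 →₀ ℕ}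
    (hα : coeff α (f : MvPolynomial (Fin 2) k) ≠ 0) (hA : ApE a α) : ∃ g ∈ P, α = tp a g := by
  classical
  obtain ⟨m, h1, h2⟩ := hA
  rcases h.soc3 _ _ h2 with ⟨g, hg, h3, h4⟩ | ⟨i, hi⟩
  · refine ⟨g, hg, ?_⟩
    apply E_ext
    · simpa [tp] using h3
    · subst h4
      simp only [tp, E_one]
      omega
  · exfalso
    have h5 : coord k a i • (Ideal.Quotient.mk (Ideal.span {yy k a, zz k a}) f) = 0 :=
      mem_socle.1 hf _ (Ideal.subset_span ⟨i, rfl⟩)
    rw [← Ideal.Quotient.mk_eq_mk, ← Submodule.Quotient.mk_smul, Submodule.Quotient.mk_eq_zero,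
      smul_eq_mul] at h5
    have h6 : coeff (E (a i) (a (Fin.last n) - a i) + α)
        ((coord k a i * f : coordRing k a) : MvPolynomial (Fin 2) k) ≠ 0 := by
      rw [Subalgebra.coe_mul, coord_coe, coeff_monomial_mul, one_mul]
      exact hα
    apply not_ApE_of_mem h h5 h6
    have hle := h.le i
    refine ⟨m + 1, ?_, ?_⟩
    · rw [add_mul, ← h1]
      simp only [Finsupp.add_apply, E_zero, E_one]
      omega
    · have : (E (a i) (a (Fin.last n) - a i) + α) 0 = α 0 + a i := by
        simp only [Finsupp.add_apply, E_zero]; omega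
      rwa [this]

theorem finrank_socle {P : Set ℕ} (h : Good a P) :
    Module.finrank k (socle (Ideal.span {yy k a, zz k a})) = P.ncard := by
  classical
  have : Fintype P := h.fin.fintype
  let v : P → socle (Ideal.span {yy k a, zz k a}) := fun f =>
    ⟨_, top_mem_socle h f.2⟩
  -- coefficient of a combination
  have hco : ∀ (c : P → k) (g : P), coeff (tp a g)
      ((∑ f, c f • ee k a (tp a (f : ℕ)) : coordRing k a) : MvPolynomial (Fin 2) k) = c g := by
    intro c g
    rw [AddSubmonoidClass.coe_finsetSum, coeff_sum, Finset.sum_eq_single g]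
    · rw [Subalgebra.coe_smul, ee_coe h.le (tp_InS h g.2), coeff_smul, coeff_monomial, if_pos rfl,
        smul_eq_mul, mul_one]
    · intro b _ hb
      rw [Subalgebra.coe_smul, ee_coe h.le (tp_InS h b.2), coeff_smul, coeff_monomial, if_neg,
        smul_zero]
      intro hc
      exact hb (Subtype.ext (tp_inj hc))
    · intro hb; exact absurd (Finset.mem_univ g) hb
  have hco' : ∀ (c : P → k) (α : Fin 2 →₀ ℕ), (∀ g ∈ P, α ≠ tp a g) → coeff α
      ((∑ f, c f • ee k a (tp a (f : ℕ)) : coordRing k a) : MvPolynomial (Fin 2) k) = 0 := by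
    intro c α hα
    rw [AddSubmonoidClass.coe_finsetSum, coeff_sum]
    apply Finset.sum_eq_zero
    intro b _
    rw [Subalgebra.coe_smul, ee_coe h.le (tp_InS h b.2), coeff_smul, coeff_monomial, if_neg,
      smul_zero]
    intro hc
    exact hα b b.2 hc.symm
  have hcoe : ∀ c : P → k, ((∑ f, c f • v f : socle (Ideal.span {yy k a, zz k a})) :
      coordRing k a ⧸ Ideal.span {yy k a, zz k a}) =
      Ideal.Quotient.mk _ (∑ f, c f • ee k a (tp a (f : ℕ))) := by
    intro c
    rw [AddSubmonoidClass.coe_finsetSum, map_sum]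
    apply Finset.sum_congr rfl
    intro f _
    rfl
  have hli : LinearIndependent k v := by
    rw [Fintype.linearIndependent_iff]
    intro c hc g
    have h1 := hcoe c
    rw [hc] at h1
    have h2 : Ideal.Quotient.mk (Ideal.span {yy k a, zz k a})
        (∑ f, c f • ee k a (tp a (f : ℕ))) = 0 := h1.symm
    rw [Ideal.Quotient.eq_zero_iff_mem] at h2
    by_contra hne
    apply not_ApE_of_mem h h2 (α := tp a g)
    · rw [hco]; exact hne
    · exact tp_ApE h g.2
  have hsp : ⊤ ≤ Submodule.span k (Set.range v) := by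
    rintro ⟨q, hq⟩ _
    obtain ⟨f, rfl⟩ := Ideal.Quotient.mk_surjective q
    have : (⟨Ideal.Quotient.mk _ f, hq⟩ : socle (Ideal.span {yy k a, zz k a})) =
        ∑ g : P, coeff (tp a g) (f : MvPolynomial (Fin 2) k) • v g := by
      apply Subtype.ext
      rw [hcoe]
      rw [Ideal.Quotient.eq]
      apply mem_of_not_ApE h
      intro α hα hA
      rw [Subalgebra.coe_sub, coeff_sub] at hα
      by_cases hc : ∃ g ∈ P, α = tp a g
      · obtain ⟨g, hg, rfl⟩ := hc
        rw [hco (fun g => coeff (tp a g) (f : MvPolynomial (Fin 2) k)) ⟨g, hg⟩] at hα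
        simp at hα
      · have hc' : ∀ g ∈ P, α ≠ tp a g := fun g hg he => hc ⟨g, hg, he⟩
        rw [hco' _ _ hc', sub_zero] at hα
        exact hc (socle_coeff h hq hα hA)
    rw [this]
    apply Submodule.sum_mem
    intro g _
    exact Submodule.smul_mem _ _ (Submodule.subset_span ⟨g, rfl⟩)
  rw [Module.finrank_eq_card_basis (Module.Basis.mk hli hsp), ← Nat.card_eq_fintype_card]
  rfl

theorem finite_quot {P : Set ℕ} (h : Good a P) :
    Module.Finite k (coordRing k a ⧸ Ideal.span {yy k a, zz k a}) := by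
  classical
  have hfin : {α : Fin 2 →₀ ℕ | ApE a α}.Finite := by
    apply Set.Finite.subset (s := (fun p : ℕ × ℕ => E p.1 p.2) ''
      (Set.Iic (3 * a (Fin.last n)) ×ˢ Set.Iic (3 * a (Fin.last n))))
    · exact ((Set.finite_Iic _).prod (Set.finite_Iic _)).image _
    · rintro α ⟨m, h1, h2⟩
      have h3 := h.bdd _ _ h2
      have h4 : m * a (Fin.last n) ≤ 3 * a (Fin.last n) := Nat.mul_le_mul_right _ h3
      refine ⟨(α 0, α 1), ⟨?_, ?_⟩, E_eta α⟩
      · simp only [Set.mem_Iic]; omega
      · simp only [Set.mem_Iic]; omega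
  rw [Module.finite_def]
  refine ⟨hfin.toFinset.image
    (fun α => Ideal.Quotient.mk (Ideal.span {yy k a, zz k a}) (ee k a α)), ?_⟩
  rw [eq_top_iff]
  rintro q _
  obtain ⟨f, rfl⟩ := Ideal.Quotient.mk_surjective q
  rw [sum_ee h.le f, map_sum]
  apply Submodule.sum_mem
  intro α hα
  have hα' : coeff α (f : MvPolynomial (Fin 2) k) ≠ 0 := by simpa using hα
  have h1 : Ideal.Quotient.mk (Ideal.span {yy k a, zz k a})
      (coeff α (f : MvPolynomial (Fin 2) k) • ee k a α) =
      coeff α (f : MvPolynomial (Fin 2) k) •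
        Ideal.Quotient.mk (Ideal.span {yy k a, zz k a}) (ee k a α) := rfl
  rw [h1]
  apply Submodule.smul_mem
  by_cases hA : ApE a α
  · apply Submodule.subset_span
    simp only [Finset.coe_image, Set.Finite.coe_toFinset]
    exact ⟨α, hA, rfl⟩
  · have := ee_mem (k := k) h (mem_iff' h.le f α hα') hA
    rw [Ideal.Quotient.eq_zero_iff_mem.2 this]
    exact Submodule.zero_mem _

theorem yy_ne_zero {P : Set ℕ} (h : Good a P) : yy k a ≠ 0 := by
  intro hc
  have := congrArg (fun x : coordRing k a => (x : MvPolynomial (Fin 2) k)) hc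
  rw [yy_coe h.zero, Subalgebra.coe_zero, monomial_eq_zero] at this
  exact one_ne_zero this

theorem zz_regular {P : Set ℕ} (h : Good a P) {f g : coordRing k a}
    (hfg : zz k a * f = yy k a * g) : ∃ r, yy k a * r = f := by
  classical
  have hpos := h.pos
  have hfg' : (monomial (E (a (Fin.last n)) 0) 1 * (f : MvPolynomial (Fin 2) k)) =
      monomial (E 0 (a (Fin.last n))) 1 * (g : MvPolynomial (Fin 2) k) := by
    have := congrArg (fun x : coordRing k a => (x : MvPolynomial (Fin 2) k)) hfg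
    simpa only [Subalgebra.coe_mul, yy_coe h.zero, zz_coe] using this
  have hf : ∀ α, coeff α (f : MvPolynomial (Fin 2) k) ≠ 0 → E 0 (a (Fin.last n)) ≤ α := by
    intro α hα
    have h1 := congrArg (coeff (E (a (Fin.last n)) 0 + α)) hfg'
    rw [coeff_monomial_mul, one_mul, coeff_monomial_mul'] at h1
    by_cases hc : E 0 (a (Fin.last n)) ≤ E (a (Fin.last n)) 0 + α
    · rw [E_le] at hc ⊢
      simp only [Finsupp.add_apply, E_zero, E_one] at hc
      omega
    · rw [if_neg hc] at h1
      exact absurd h1 hα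
  have hr : ∀ α, coeff α ((f : MvPolynomial (Fin 2) k).divMonomial (E 0 (a (Fin.last n)))) ≠ 0 →
      InS (Set.range a) (a (Fin.last n)) α := by
    intro α hα
    rw [coeff_divMonomial] at hα
    have h1 := mem_iff' h.le f _ hα
    have h2 : coeff (E (a (Fin.last n)) 0 + α) (g : MvPolynomial (Fin 2) k) ≠ 0 := by
      have h3 := congrArg (coeff (E 0 (a (Fin.last n)) + (E (a (Fin.last n)) 0 + α))) hfg'
      rw [coeff_monomial_mul, one_mul, add_left_comm, coeff_monomial_mul, one_mul] at h3
      rw [← h3]; exact hα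
    have h4 := mem_iff' h.le g _ h2
    obtain ⟨m, h5, h6⟩ := h1
    obtain ⟨m', h7, h8⟩ := h4
    simp only [Finsupp.add_apply, E_zero, E_one, zero_add] at h5 h6 h7 h8
    have hmm : m = m' := Nat.eq_of_mul_eq_mul_right hpos (by omega)
    subst hmm
    rw [add_comm (a (Fin.last n)) (α 0)] at h8
    obtain ⟨m', rfl, h9⟩ := h.cm _ _ _ h6 h8
    refine ⟨m', ?_, h9⟩
    rw [add_mul, one_mul] at h7
    omega
  refine ⟨⟨_, (mem_iff h.le).2 hr⟩, ?_⟩
  apply Subtype.ext
  rw [Subalgebra.coe_mul, yy_coe h.zero]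
  ext α
  rw [coeff_monomial_mul']
  simp only [coeff_divMonomial, one_mul]
  by_cases hc : E 0 (a (Fin.last n)) ≤ α
  · rw [if_pos hc, add_tsub_cancel_of_le hc]
  · rw [if_neg hc]
    by_contra hne
    exact hc (hf α (Ne.symm hne))

theorem one_not_mem {P : Set ℕ} (h : Good a P) :
    (1 : coordRing k a) ∉ Ideal.span {yy k a, zz k a} := by
  intro hc
  have h1 : coeff 0 ((1 : coordRing k a) : MvPolynomial (Fin 2) k) ≠ 0 := by
    rw [Subalgebra.coe_one, coeff_zero_one]; exact one_ne_zero
  apply not_ApE_of_mem h hc h1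
  refine ⟨0, by simp, ?_, ?_, ?_⟩
  · simp [K_zero]
  · intro m' hm'; omega
  · intro m' x' hm'; omega

theorem regular {P : Set ℕ} (h : Good a P) :
    RingTheory.Sequence.IsRegular (coordRing k a) [yy k a, zz k a] := by
  constructor
  · rw [RingTheory.Sequence.isWeaklyRegular_cons_iff, RingTheory.Sequence.isWeaklyRegular_singleton_iff]
    constructor
    · intro f g hfg
      simp only [smul_eq_mul] at hfg
      exact mul_left_cancel₀ (yy_ne_zero h) hfg
    · apply IsSMulRegular.of_right_eq_zero_of_smul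
      intro q hq
      obtain ⟨f, rfl⟩ := Submodule.Quotient.mk_surjective _ q
      rw [← Submodule.Quotient.mk_smul, Submodule.Quotient.mk_eq_zero,
        Submodule.mem_smul_pointwise_iff_exists] at hq
      obtain ⟨g, _, hg⟩ := hq
      rw [smul_eq_mul, smul_eq_mul] at hg
      obtain ⟨r, hr⟩ := zz_regular h hg.symm
      rw [Submodule.Quotient.mk_eq_zero, Submodule.mem_smul_pointwise_iff_exists]
      exact ⟨r, trivial, hr⟩
  · intro hc
    apply one_not_mem (k := k) h
    have h1 : (1 : coordRing k a) ∈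
        (Ideal.ofList [yy k a, zz k a] • ⊤ : Submodule (coordRing k a) (coordRing k a)) := by
      rw [← hc]; trivial
    rw [smul_eq_mul, Ideal.mul_top] at h1
    have h2 : Ideal.ofList [yy k a, zz k a] = Ideal.span {yy k a, zz k a} := by
      unfold Ideal.ofList
      congr 1
      ext x
      simp
    rwa [h2] at h1

theorem isACM {P : Set ℕ} (h : Good a P) : IsACMOfType k a P.ncard := by
  refine ⟨yy k a, zz k a, ⟨Ideal.subset_span ⟨_, rfl⟩, Ideal.subset_span ⟨_, rfl⟩,
    ⟨(E 0 (a (Fin.last n))).degree, ?_⟩, ⟨(E (a (Fin.last n)) 0).degree, ?_⟩,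
    regular h⟩, finite_quot h, finrank_socle h⟩
  · rw [yy_coe h.zero]
    exact isHomogeneous_monomial _ rfl
  · rw [zz_coe]
    exact isHomogeneous_monomial _ rfl

end algebra

/-! ### From the semigroup to the set-up -/

/-- natural pseudo-Frobenius numbers -/
def PF (T : AddSubmonoid ℕ) : Set ℕ := {f | f ∉ T ∧ ∀ s ∈ T, s ≠ 0 → f + s ∈ T}

theorem exists_bound {T : AddSubmonoid ℕ} (hT : IsNumericalSemigroup T) :
    ∃ N, ∀ n, N < n → n ∈ T := by
  obtain ⟨N, hN⟩ := hT.bddAbove
  refine ⟨N, fun n hn => ?_⟩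
  by_contra hc
  exact absurd (hN hc) (by omega)

theorem one_not_mem_T {T : AddSubmonoid ℕ} (hT : T ≠ ⊤) : 1 ∉ T := by
  intro h
  apply hT
  rw [eq_top_iff]
  intro n _
  have := T.nsmul_mem h n
  simpa using this

theorem pf_top : pseudoFrobenius (⊤ : AddSubmonoid ℕ) = {-1} := by
  ext x
  constructor
  · rintro ⟨h1, h2⟩
    obtain ⟨n, _, hn⟩ := h2 1 trivial one_ne_zero
    have h3 : ¬ 0 ≤ x := fun hx => h1 x.toNat trivial (by simp [hx])
    simp only [Nat.cast_one] at hn
    rw [Set.mem_singleton_iff]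
    omega
  · intro hx
    rw [Set.mem_singleton_iff] at hx
    subst hx
    refine ⟨fun n _ hn => by omega, fun s _ hs => ⟨s - 1, trivial, by omega⟩⟩

theorem pf_eq {T : AddSubmonoid ℕ} (hT : IsNumericalSemigroup T) (hT' : T ≠ ⊤) :
    pseudoFrobenius T = (fun n : ℕ => (n : ℤ)) '' PF T := by
  have h1 := one_not_mem_T hT'
  obtain ⟨F, hF, hmax⟩ := hT.exists_maximal ⟨1, h1⟩
  have hbig : ∀ n, F < n → n ∈ T := by
    intro n hn
    by_contra hc
    have := hmax (y := n) hc hn.le
    exact absurd this (by simpa using hn)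
  ext x
  constructor
  · rintro ⟨h2, h3⟩
    have h4 : 0 ≤ x := by
      by_contra hc
      obtain ⟨j, hj⟩ := Int.eq_ofNat_of_zero_le (show 0 ≤ -x by omega)
      obtain ⟨n, hn, hn'⟩ := h3 (F + j) (hbig _ (by omega)) (by omega)
      push_cast at hn'
      have : n = F := by omega
      exact hF (this ▸ hn)
    refine ⟨x.toNat, ⟨fun hc => h2 _ hc (by simp [h4]), fun s hs hs0 => ?_⟩, by simp [h4]⟩
    obtain ⟨n, hn, hn'⟩ := h3 s hs hs0
    have : n = x.toNat + s := by omega
    exact this ▸ hn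
  · rintro ⟨f, ⟨hf1, hf2⟩, rfl⟩
    refine ⟨fun n hn hc => ?_, fun s hs hs0 => ⟨f + s, hf2 s hs hs0, by push_cast; rfl⟩⟩
    have : n = f := by simpa using hc
    exact hf1 (this ▸ hn)

theorem exists_setup {T : AddSubmonoid ℕ} (hT : IsNumericalSemigroup T) (hT' : T ≠ ⊤) :
    ∃ F f1 e M w D d, Setup T (PF T) F f1 e M w D d := by
  have h1 := one_not_mem_T hT'
  obtain ⟨F, hF, hmax⟩ := hT.exists_maximal ⟨1, h1⟩
  have hbig : ∀ n, F < n → n ∈ T := by
    intro n hn
    by_contra hc
    have := hmax (y := n) hc hn.le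
    exact absurd this (by simpa using hn)
  have hgap : ∀ g, g ∉ T → g ≤ F := by
    intro g hg
    by_contra hc
    exact hg (hbig g (by omega))
  have hFP : F ∈ PF T := ⟨hF, fun s _ hs => hbig _ (by omega)⟩
  have hpos : ∀ f ∈ PF T, 1 ≤ f := by
    intro f hf
    rcases Nat.eq_zero_or_pos f with h0 | h0
    · exact absurd (h0 ▸ T.zero_mem) hf.1
    · exact h0
  classical
  have hex : ∃ f, f ∈ PF T := ⟨F, hFP⟩
  refine ⟨F, Nat.find hex, 2 * F + 3, 6 * (2 * F + 3),
    6 * (2 * F + 3) + 1 - Nat.find hex - (2 * F + 3), 6 * (2 * F + 3) + (2 * F + 3),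
    2 * (6 * (2 * F + 3)) + 1 - Nat.find hex, ?_⟩
  have hf1 := Nat.find_spec hex
  have hf1F : Nat.find hex ≤ F := Nat.find_min' hex hFP
  refine
    { big := hbig
      Pgap := fun f hf => hf.1
      Padd := fun f hf => hf.2
      Pmax := ?_
      hF := hFP
      hf1 := hf1
      hle := fun f hf => Nat.find_min' hex hf
      h1 := hpos _ hf1
      he := le_rfl
      hM := le_rfl
      hw := by omega
      hD := rfl
      hd := by omega }
  -- every other gap is below a pseudo-Frobenius number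
  have key : ∀ j g, g ∉ T → F ≤ g + j → ∃ f ∈ PF T, ∃ s ∈ T, f = g + s := by
    intro j
    induction j with
    | zero =>
      intro g hg hj
      have := hgap g hg
      have hgF : g = F := by omega
      exact ⟨F, hFP, 0, T.zero_mem, by omega⟩
    | succ j ih =>
      intro g hg hj
      by_cases hp : g ∈ PF T
      · exact ⟨g, hp, 0, T.zero_mem, rfl⟩
      · have : ∃ s ∈ T, s ≠ 0 ∧ g + s ∉ T := by
          by_contra hc
          push Not at hc
          exact hp ⟨hg, hc⟩
        obtain ⟨s, hs, hs0, hgs⟩ := this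
        obtain ⟨f, hf, t, ht, hft⟩ := ih (g + s) hgs (by omega)
        exact ⟨f, hf, s + t, T.add_mem hs ht, by omega⟩
  intro g hg hgP
  obtain ⟨f, hf, s, hs, hfs⟩ := key F g hg (by omega)
  refine ⟨f, hf, s, hs, ?_, hfs⟩
  rintro rfl
  rw [add_zero] at hfs
  exact hgP (hfs ▸ hf)

/-- the exponents form a finite set -/
theorem AA_finite {T : AddSubmonoid ℕ} {P : Set ℕ} {F f1 e M w D d : ℕ}
    (h : Setup T P F f1 e M w D d) : (AA T P M w D d).Finite := by
  apply Set.Finite.subset (Set.finite_Iic d)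
  have h1 := h.hw
  have h3 := h.he
  have h4 := h.hM
  have h5 := h.hD
  have h6 := h.hd
  have h7 := h.f1_le
  rintro a (ha | rfl | rfl)
  · have := ha.2.1
    simp only [Set.mem_Iic]; omega
  · simp only [Set.mem_Iic]; omega
  · simp

theorem mem_K_large {T : AddSubmonoid ℕ} {P : Set ℕ} {F f1 e M w D d : ℕ}
    (h : Setup T P F f1 e M w D d) {s : ℕ} (hs : s ∈ T) :
    s ∈ K (AA T P M w D d) (s + 1) := by
  apply h.key s s hs
  have h2 := h.h1
  have h3 := h.he
  have h4 := h.hM
  have : s * 1 ≤ s * M := Nat.mul_le_mul_left _ (by omega)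
  omega

theorem K_sub_closure {A : Set ℕ} {m x : ℕ} (hx : x ∈ K A m) : x ∈ AddSubmonoid.closure A :=
  K_mem AddSubmonoid.subset_closure hx

theorem good {T : AddSubmonoid ℕ} {P : Set ℕ} {F f1 e M w D d : ℕ}
    (h : Setup T P F f1 e M w D d) {n : ℕ} {a : Fin (n + 1) → ℕ}
    (hr : Set.range a = AA T P M w D d) (h0 : a 0 = 0) (hl : a (Fin.last n) = d)
    (hle : ∀ i, a i ≤ d) : Good a P := by
  have h1 := h.hw
  have h2 := h.h1
  have h3 := h.he
  have h4 := h.hM
  have h5 := h.hD
  have h6 := h.hd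
  have h7 := h.f1_le
  have hKT : ∀ {m x}, x ∈ K (AA T P M w D d) m → x ∈ T := fun hx => K_mem h.AA_sub_T hx
  -- facts on the Apery condition
  have hA : ∀ x m, InAp (AA T P M w D d) d x m → x ∈ T ∧ ∀ r ∈ T, x ≠ d + r := by
    rintro x m ⟨k1, _, k3⟩
    refine ⟨hKT k1, fun r hr hc => ?_⟩
    obtain ⟨m', hm', hk⟩ := h.cm hr (m := m) (by rw [add_comm, ← hc]; exact k1)
    exact k3 m' r hm' (by omega) hk
  have hB : ∀ x ∈ T, (∀ r ∈ T, x ≠ d + r) → x ≤ d + F := by
    intro x _ hx
    by_contra hc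
    exact hx (x - d) (h.big _ (by omega)) (by omega)
  refine
    { zero := h0
      pos := by rw [hl]; omega
      le := by rw [hl]; exact hle
      fin := Set.Finite.subset (Set.finite_Iic F) (fun f hf => h.P_le hf)
      cm := ?_, soc1 := ?_, soc2 := ?_, soc3 := ?_, bdd := ?_ }
  · rw [hr, hl]
    intro x m p hx hxd
    exact h.cm (hKT hx) hxd
  · rw [hr, hl]
    intro f hf
    refine ⟨h.top_three hf, ?_, ?_⟩
    · intro m' hm'
      have : m' = 2 := by omega
      subst this
      exact h.top_not_two hf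
    · intro m' x' _ hx' hk
      have : x' = f := by omega
      exact h.Pgap f hf (this ▸ hKT hk)
  · rw [hr, hl]
    rintro f hf i ⟨k1, k2, k3⟩
    have hi : a i ∈ AA T P M w D d := hr ▸ ⟨i, rfl⟩
    by_cases hai : a i = 0
    · rw [hai, add_zero] at k2
      exact k2 3 rfl (h.top_three hf)
    · have hfa : f + a i ∈ T := h.Padd f hf _ (h.AA_sub_T hi) hai
      obtain ⟨m', hm', hk⟩ := h.cm hfa (m := 4) (by
        have : f + a i + d = d + f + a i := by omega
        rw [this]; exact k1)
      exact k3 m' (f + a i) hm' (by omega) hk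
  · rw [hr, hl]
    intro x m hx
    obtain ⟨hx1, hx2⟩ := hA x m hx
    by_cases hP : ∀ f ∈ P, x ≠ d + f
    · right
      obtain ⟨m', b, hb, hm1, hm2, hm3⟩ := h.extend hx1 hx2 hP
      rw [← hr] at hb
      obtain ⟨i, rfl⟩ := hb
      refine ⟨i, K_add hx.1 (hr ▸ ⟨i, rfl⟩), ?_, ?_⟩
      · intro p hp
        have hpm : p = m := by omega
        subst hpm
        intro hc
        apply hm2
        have hmm : p ≤ m' := by
          by_contra hlt
          rcases p with _ | p
          · omega
          · exact hx.2.1 p rfl (K_mono h.zero_mem' (by omega) hm1)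
        exact K_mono h.zero_mem' hmm hc
      · intro p x' _ hx' hc
        exact hm3 x' (hKT hc) (by omega)
    · left
      push Not at hP
      obtain ⟨f, hf, hxf⟩ := hP
      refine ⟨f, hf, hxf, ?_⟩
      subst hxf
      have hm3 : m ≤ 3 := by
        by_contra hlt
        rcases m with _ | m
        · omega
        · exact hx.2.1 m rfl (K_mono h.zero_mem' (by omega) (h.top_three hf))
      have hm2 : ¬ m ≤ 2 := fun hc => h.top_not_two hf (K_mono h.zero_mem' hc hx.1)
      omega
  · rw [hr, hl]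
    intro x m hx
    obtain ⟨hx1, hx2⟩ := hA x m hx
    by_contra hlt
    rcases m with _ | m
    · omega
    · exact hx.2.1 m rfl (K_mono h.zero_mem' (by omega) (h.all_three hx1 (hB x hx1 hx2)))

/-- **Main theorem.** Let `T` be a numerical semigroup of type `t > 1`.  There is a projective
monomial curve `C` (exponents `0 = a₀ < ⋯ < aₙ` with gcd `1`) with `⟨a₀, …, aₙ⟩ = T` which is,
over every field, arithmetically Cohen-Macaulay of type `t`. -/
theorem result (T : AddSubmonoid ℕ) (hT : IsNumericalSemigroup T) (ht : 1 < semigroupType T) :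
    ∃ (n : ℕ) (a : Fin (n + 1) → ℕ), IsCurveData a ∧
      AddSubmonoid.closure (Set.range a) = T ∧
      ∀ (k : Type u) [Field k], IsACMOfType k a (semigroupType T) := by
  classical
  have hT' : T ≠ ⊤ := by
    rintro rfl
    rw [semigroupType, pf_top, Set.ncard_singleton] at ht
    omega
  have htype : semigroupType T = (PF T).ncard := by
    rw [semigroupType, pf_eq hT hT', Set.ncard_image_of_injective _ Nat.cast_injective]
  obtain ⟨F, f1, e, M, w, D, d, h⟩ := exists_setup hT hT'
  have h1 := h.hw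
  have h2 := h.h1
  have h3 := h.he
  have h4 := h.hM
  have h5 := h.hD
  have h6 := h.hd
  have h7 := h.f1_le
  have hfin := AA_finite h
  have hle : ∀ x ∈ AA T (PF T) M w D d, x ≤ d := by
    rintro a (ha | rfl | rfl)
    · have := ha.2.1
      omega
    · omega
    · omega
  set S : Finset ℕ := hfin.toFinset with hS
  have h0S : 0 ∈ S := by rw [hS, Set.Finite.mem_toFinset]; exact h.zero_mem'
  have hdS : d ∈ S := by rw [hS, Set.Finite.mem_toFinset]; exact h.mem_d
  have hpos : 0 < S.card := Finset.card_pos.2 ⟨0, h0S⟩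
  obtain ⟨n, hn⟩ : ∃ n, S.card = n + 1 := ⟨S.card - 1, by omega⟩
  have hr : Set.range (S.orderEmbOfFin hn) = AA T (PF T) M w D d := by
    rw [Finset.range_orderEmbOfFin, hS, Set.Finite.coe_toFinset]
  have ha0 : S.orderEmbOfFin hn 0 = 0 := by
    have := Finset.orderEmbOfFin_zero hn (by omega)
    have h8 : S.min' (Finset.card_pos.1 (hn.symm ▸ (by omega))) ≤ 0 := Finset.min'_le _ _ h0S
    have h9 : (0 : Fin (n + 1)) = ⟨0, by omega⟩ := rfl
    rw [h9, this]
    omega
  have hal : S.orderEmbOfFin hn (Fin.last n) = d := by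
    have := Finset.orderEmbOfFin_last hn (by omega)
    have h9 : Fin.last n = ⟨n + 1 - 1, by omega⟩ := rfl
    rw [h9, this]
    apply le_antisymm
    · apply Finset.max'_le
      intro y hy
      rw [hS, Set.Finite.mem_toFinset] at hy
      exact hle y hy
    · exact Finset.le_max' _ _ hdS
  have hle' : ∀ i, S.orderEmbOfFin hn i ≤ d := fun i => hle _ (hr ▸ ⟨i, rfl⟩)
  have hcl : AddSubmonoid.closure (Set.range (S.orderEmbOfFin hn)) = T := by
    rw [hr]
    apply le_antisymm
    · rw [AddSubmonoid.closure_le]; exact h.AA_sub_T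
    · intro s hs
      exact K_sub_closure (mem_K_large h hs)
  refine ⟨n, S.orderEmbOfFin hn, ⟨ha0, (S.orderEmbOfFin hn).strictMono, ?_⟩, hcl, ?_⟩
  · -- the gcd is one
    have hm1 : F + 1 ∈ Set.range (S.orderEmbOfFin hn) := by
      rw [hr]; exact h.A0_sub (h.low (h.big _ (by omega)) (by omega))
    have hm2 : F + 2 ∈ Set.range (S.orderEmbOfFin hn) := by
      rw [hr]; exact h.A0_sub (h.low (h.big _ (by omega)) (by omega))
    obtain ⟨i, hi⟩ := hm1
    obtain ⟨j, hj⟩ := hm2
    have d1 : Finset.univ.gcd (S.orderEmbOfFin hn) ∣ F + 1 := by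
      rw [← hi]; exact Finset.gcd_dvd (Finset.mem_univ i)
    have d2 : Finset.univ.gcd (S.orderEmbOfFin hn) ∣ F + 2 := by
      rw [← hj]; exact Finset.gcd_dvd (Finset.mem_univ j)
    have d3 := (Nat.dvd_add_right d1).1 (show _ ∣ (F + 1) + 1 from d2)
    exact Nat.dvd_one.1 d3
  · intro k _
    rw [htype]
    exact isACM (good h hr ha0 hal hle')

end Pool.Agent.Results.MP_4f2529_ag.ExistsACM
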